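import Pool.Agent.Run7.h945.TH.FiniteType

/-!
# MP_d483fb_an: actions of lattices with functions of finite type

`Γ` is a finitely generated group none of whose subgroups of finite index has a non trivial
homomorphism to `ℝ`, and `r` is a number such that all smooth actions of subgroups of finite index of
`Γ` on closed manifolds of dimension smaller than `r` have finite image.  (For the lattices of the
problem the first property follows from property (T), and the second one is the theorem of Brown,
Fisher and Hurtado for `r = r(G)`.)  A function on `M` is of finite type (`N`) if its translates
under a subgroup of finite index of `Γ` lie in a space of functions of dimension at most `N`; for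
`N = 1` this includes the functions which are invariant under a subgroup of finite index.  Suppose that
`N ≤ 1` or that the bounded homomorphisms from subgroups of finite index of `Γ` to `GL_d(ℝ)`, `d ≤ N`,
have finite image.  (For lattices which are not uniform this is true for all `N` by Margulis
superrigidity.)

If `Γ` acts smoothly on the closed manifold `M` of any dimension `m` and every connected component of
`M` contains a point at which the differentials of `k > m - r` smooth functions of finite type are
linearly independent, the image of `Γ` is finite.
-/

set_option autoImplicit false

namespace Pool.Agent.Results.MP_d483fb_an.FunctionsOfFiniteType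

open Pool.Agent.Run7.h945.TH

theorem result {Γ : Type} [Group Γ] [Group.FG Γ] (hR : NoReal Γ) (r : ℕ)
    (hA : FiniteActionsAll Γ r) (N : ℕ)
    (hB : N ≤ 1 ∨ ∀ Δ : Subgroup Γ, Δ.FiniteIndex → BoundedFinite Δ N) (X : ClosedAction Γ)
    (h : ∀ y : X.M, ∃ x ∈ connectedComponent y, ∃ (k : ℕ) (f : Fin k → X.M → ℝ),
      X.dim < r + k ∧ Independent X.dim f x ∧ ∀ i, SmoothFiniteType N X (f i)) :
    FiniteImage X :=
  finite_of_finiteType hR hA hB X h

end Pool.Agent.Results.MP_d483fb_an.FunctionsOfFiniteType
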