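import Pool.Agent.Run7.h945.TH.Classes

/-!
# MP_d483fb_an: reducible actions of lattices

`Γ` is a finitely generated group none of whose subgroups of finite index has a non trivial
homomorphism to `ℝ`, and `r` is a number such that all smooth actions of subgroups of finite index of
`Γ` on closed manifolds of dimension smaller than `r` have finite image.  (For the lattices of the
problem the first property follows from property (T), and the second one is the theorem of Brown,
Fisher and Hurtado for `r = r(G)`.)

The class `Reducible r` is the smallest class of closed manifolds with smooth actions of `Γ` such that
`X` belongs to the class in each of the following cases.

* `dim X < r`, or the image of `Γ` in the group of permutations of `X` is finite.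
* There are a member `Y` and a smooth equivariant map `F : X → Y` such that every component of `X`
  contains a point `x` with `dim X < r + rank_x F`.
* There are a member `Y`, an equivariant map `F : X → Y` and a group `A` which acts on `X` and commutes
  with `Γ` such that in every component of `X` the set of the points `x` such that the fibre of `F`
  through `x` is contained in finitely many orbits of `A` is not meagre or not null; `A` is solvable or all
  homomorphisms from subgroups of finite index of `Γ` to the groups `N(A_x)/A_x` have finite image.
  (Example: principal bundles with structure group `A`, or finite fibres.)
* There are members `Y x` and equivariant maps `ι x : Y x → X`, `x ∈ X`, such that in every component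
  of `X` the set of the points `x` of the image of `ι x` is not meagre or not null.  (Example:
  foliations by invariant closed leaves in the class; products.)
* All homomorphisms from subgroups of finite index of `Γ` to `GL_m(ℝ)`, `m = dim X`, have finite image
  (superrigidity in the range of the problem), and there are a member `Y` and an equivariant map
  `ι : Y → X` whose image meets every component of `X`.  (Example: `X` is connected and contains an
  invariant closed submanifold of dimension smaller than `r`.)

All actions of the class, whatever the dimension of the manifold, have finite image.
-/

set_option autoImplicit false

namespace Pool.Agent.Results.MP_d483fb_an.ReducibleActions

open Pool.Agent.Run7.h945.TH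

theorem result {Γ : Type} [Group Γ] [Group.FG Γ] (hR : NoReal Γ) (r : ℕ)
    (hA : FiniteActionsAll Γ r) (X : ClosedAction Γ) : Reducible r X → FiniteImage X :=
  finite_of_reducible hR hA X

end Pool.Agent.Results.MP_d483fb_an.ReducibleActions
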